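import Pool.Agent.H512.IT.OddMain

set_option autoImplicit false

/-!
# The `Σ`-Leopoldt conjecture for all CM types of abelian CM fields of degree `2 d`, `d` odd

Let `K / ℚ` be an abelian CM field of degree `2 d`, `d` odd, and `k` its imaginary quadratic
subfield. Let `H ⊇ K` be abelian over `k` and Galois over `ℚ`, `H / K` cyclic, and `χ` a faithful
character of `Gal(H / K)`. For the two CM types of `K` which are induced from `k` the
`Σ`-Leopoldt conjecture is a consequence of the theorem of Baker and Brumer. For the other
`2^d - 2` types the regulator mixes the logarithms at the two embeddings of `k`, and Baker's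
method gives no information.

Suppose that the elements of `Gal(H / K)` of order prime to `p` are central in `Gal(H / ℚ)` (for
example, the order of `χ` is a power of `p`), and that `p = 2` or `p > (d!) ^ d`. We prove the
conjecture for `χ` and ALL `p`-ordinary CM types of `K`.

Proof. The `χ`-part of `ℂ_p ⊗ 𝓞_H^×` is the sum of the `ψ`-parts, `ψ` running through the
characters of `Gal(H / k)` which extend `χ`; each is at most one-dimensional. Let `x_ψ` be a
generator, `s` an embedding of `H`, `g` an automorphism of `H` which extends the complex
conjugation and `ρ_ψ = log (s g x_ψ) / log (s x_ψ)` (the denominator is not zero, by Brumer). For an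
automorphism `τ` of `ℂ_p` with `ψ(g h g⁻¹) = τ(ψ(h))` the semilinear operator `τ ⊗ g` acts on the
line of `x_ψ`. This gives `ρ_ψ τ(ρ_ψ) = ν` with `ν` independent of `ψ`. We can choose `τ` such that it
acts trivially on the residues of the `ρ_ψ` (which are residues of roots of unity of order prime
to `p`). So the residues of the `ρ_ψ` agree up to sign, and modulo the maximal ideal the matrix of
the logarithms is, up to constants, the character table of the group `Gal(K / k)` of odd order
`d`, where the signs of some columns are changed in some of the rows. Its determinant is an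
algebraic integer in the field of the `d`-th roots of unity, congruent modulo `2` to the
determinant of the character table; so it is odd, in particular not zero, and its conjugates are
bounded by `d!`. So it is a unit at `p` if `p = 2` or `p > (d!)^d`.
-/

namespace Pool.Agent.H512.Old.AllTypesOddDegree

open NumberField Pool.Agent.W289.SL Pool.Agent.W332.SL6 Pool.Agent.H512.IT
open scoped Nat

/-- Let `F` be a totally real field of odd degree `d`, `K` a totally imaginary quadratic extension
of `F` which is abelian over `ℚ`, and `S` a `p`-ordinary CM type of `K`, where `p = 2` or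
`p > (d!)^d`. Let `H` be a number field containing `K`, Galois over `ℚ` and abelian over an imaginary
quadratic subfield `k` of `K`, and `χ` an injective character of `Gal(H/K)`, and suppose that the
elements of `Gal(H/K)` of order prime to `p` commute with all elements of `Gal(H/ℚ)`. Then the
`Σ`-Leopoldt conjecture holds for `χ` and `S`. -/
theorem result (p : ℕ) [Fact p.Prime] (F K : Type) [Field F] [NumberField F] [IsTotallyReal F]
    [Field K] [NumberField K] [IsTotallyComplex K] [Algebra F K]
    (hFK : Module.finrank F K = 2) [IsGalois ℚ K] (hK : ∀ a b : K ≃ₐ[ℚ] K, a * b = b * a)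
    (hodd : Odd (Module.finrank ℚ F))
    (hp : p = 2 ∨ (Module.finrank ℚ F)! ^ Module.finrank ℚ F < p)
    (S : Set (K →+* ℂ_[p])) (hS : IsCMType p F K S) (hord : Ordinary S)
    (k H : Type) [Field k] [NumberField k] [IsTotallyComplex k] (hk : Module.finrank ℚ k = 2)
    [Algebra k K] [Field H] [NumberField H] [Algebra K H] [Algebra k H] [IsScalarTower k K H]
    [IsGalois ℚ H] (hab : ∀ a b : H ≃ₐ[k] H, a * b = b * a)
    (χ : (H ≃ₐ[K] H) →* ℂ_[p]ˣ) (hχ : Function.Injective χ)
    (hcen : ∀ h : H ≃ₐ[K] H, (orderOf h).Coprime p → ∀ g : H ≃ₐ[ℚ] H, ∀ y, g (h y) = h (g y)) :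
    SigmaLeopoldt p K H S χ := by
  classical
  have : FiniteDimensional K H := Module.Finite.of_restrictScalars_finite ℚ K H
  have : FiniteDimensional k H := Module.Finite.of_restrictScalars_finite ℚ k H
  have : FiniteDimensional k K := Module.Finite.of_restrictScalars_finite ℚ k K
  have : IsGalois k K := IsGalois.tower_top_of_isGalois ℚ k K
  have : IsGalois k H := IsGalois.tower_top_of_isGalois ℚ k H
  have : IsGalois K H := IsGalois.tower_top_of_isGalois ℚ K H
  have hpl : ∀ w w' : InfinitePlace k, w = w' := by
    have h1 := IsTotallyComplex.finrank k
    have h1' := InfinitePlace.card_eq_nrRealPlaces_add_nrComplexPlaces k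
    rw [IsTotallyComplex.nrRealPlaces_eq_zero k] at h1'
    have h2 : Fintype.card (InfinitePlace k) ≤ 1 := by omega
    exact fun w w' => Fintype.card_le_one_iff.1 h2 w w'
  intro L hL x _ h0
  exact all_types hFK hk hodd hK hp hS hord hpl hab χ hχ hcen hL h0

end Pool.Agent.H512.Old.AllTypesOddDegree
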